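import Pool.Agent.Y65.PS.Psl

set_option autoImplicit false

open Matrix
open scoped MatrixGroups

namespace Pool.Agent.Results.MP_11bee9_al.EveryCharacteristic

/-- The word `x³ y x² y⁻¹ x y x⁻¹ y⁻¹ x⁻¹ y x² y⁻¹ x⁻³ y x⁻¹ y⁻¹` in the free group on
`x = of 0` and `y = of 1`. -/
def w : FreeGroup (Fin 2) :=
  FreeGroup.of 0 ^ 3 * FreeGroup.of 1 * FreeGroup.of 0 ^ 2 * (FreeGroup.of 1)⁻¹ *
    FreeGroup.of 0 * FreeGroup.of 1 * (FreeGroup.of 0)⁻¹ * (FreeGroup.of 1)⁻¹ *
    (FreeGroup.of 0)⁻¹ * FreeGroup.of 1 * FreeGroup.of 0 ^ 2 * (FreeGroup.of 1)⁻¹ *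
    (FreeGroup.of 0 ^ 3)⁻¹ * FreeGroup.of 1 * (FreeGroup.of 0)⁻¹ * (FreeGroup.of 1)⁻¹

/-- The class in `PSL(2, K) = SL(2, K) / center` of a matrix in `SL(2, K)`. -/
def cls {K : Type} [Field K] (g : SL(2, K)) : PSL(2, K) := QuotientGroup.mk g

/-- The diagonal matrix with entries `u, u⁻¹`. -/
def diag {K : Type} [Field K] (u : Kˣ) : SL(2, K) :=
  ⟨!![(u : K), 0; 0, ((u⁻¹ : Kˣ) : K)], by simp [Matrix.det_fin_two]⟩

/-- The class of `g` in `PSL(2, K)`, `K` a field of characteristic `p`, is regular semisimple: its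
order is (nonzero and) prime to `p`, and its centraliser in `PSL(2)` over the algebraic closure
of `K` is a conjugate of the one-dimensional torus of the classes of all diagonal matrices. -/
def IsRegSemisimple (p : ℕ) {K : Type} [Field K] (g : SL(2, K)) : Prop :=
  IsOfFinOrder (cls g) ∧ (orderOf (cls g)).Coprime p ∧
    ∃ h : SL(2, AlgebraicClosure K), ∀ z : SL(2, AlgebraicClosure K),
      cls z * cls (Matrix.SpecialLinearGroup.map (algebraMap K (AlgebraicClosure K)) g) =
          cls (Matrix.SpecialLinearGroup.map (algebraMap K (AlgebraicClosure K)) g) * cls z ↔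
        ∃ u : (AlgebraicClosure K)ˣ, cls z = cls (h * diag u * h⁻¹)

/-- For every `d ≥ 2` there are two words `w₂` and `w'` in the free group of rank `d`, neither of
them a proper power (`w'` is the word `w` above, in the first two letters), such that every value
of `w'` on `SL(2)` over any commutative ring has trace `f ^ 2 - 2` for some `f`, like a square, and
such that for every prime `p` and every finite field `K` of characteristic `p` there is a set `T`
of at least `(|K| - 5) / 4` elements of `K` with the property that every matrix in `SL(2, K)` with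
trace in `T` has a regular semisimple class in `PSL(2, K)`, and this class is not a value on
`PSL(2, K)` of `w₂` if `p = 2`, of `w'` if `p` is odd. -/
theorem result (d : ℕ) (hd : 2 ≤ d) : ∃ w₂ w' : FreeGroup (Fin d),
    (∀ (v : FreeGroup (Fin d)) (k : ℕ), 2 ≤ k → v ^ k ≠ w₂ ∧ v ^ k ≠ w') ∧
    w' = FreeGroup.map (Fin.castLE hd) w ∧
    (∀ (R : Type) [CommRing R] (x : Fin d → SL(2, R)), ∃ f : R,
      ((FreeGroup.lift x w' : SL(2, R)) : Matrix (Fin 2) (Fin 2) R).trace = f ^ 2 - 2) ∧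
    ∀ (p : ℕ) [Fact p.Prime] (K : Type) [Field K] [Finite K] [CharP K p],
      ∃ T : Set K, Nat.card K ≤ 4 * T.ncard + 5 ∧
        (∀ t ∈ T, ∃ g : SL(2, K), (g : Matrix (Fin 2) (Fin 2) K).trace = t) ∧
        ∀ g : SL(2, K), (g : Matrix (Fin 2) (Fin 2) K).trace ∈ T →
          IsRegSemisimple p g ∧
            ∀ x : Fin d → PSL(2, K), FreeGroup.lift x (if p = 2 then w₂ else w') ≠ cls g := by
  refine ⟨Pool.Agent.Y65.PS.emb hd Pool.Agent.W332.Half.word, Pool.Agent.Y65.PS.emb hd w, ?_, rfl,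
    ?_, ?_⟩
  · intro v k hk
    exact ⟨Pool.Agent.Y65.PS.emb_not_pow hd Pool.Agent.W332.Half.not_pow v k hk,
      Pool.Agent.Y65.PS.emb_not_pow hd Pool.Agent.Y65.PS.not_pow v k hk⟩
  · intro R _ x
    obtain ⟨f, hf⟩ := Pool.Agent.Y65.PS.trace_wordVal (x (Fin.castLE hd 0)) (x (Fin.castLE hd 1))
    refine ⟨f, ?_⟩
    have hw : FreeGroup.lift ![x (Fin.castLE hd 0), x (Fin.castLE hd 1)] w =
        Pool.Agent.Y65.PS.wordVal (x (Fin.castLE hd 0)) (x (Fin.castLE hd 1)) :=
      Pool.Agent.Y65.PS.lift_word _ _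
    rw [← hf, Pool.Agent.Y65.PS.lift_emb, hw]
  intro p hp K _ _ _
  have hex : ∀ t : K, ∃ g : SL(2, K), (g : Matrix (Fin 2) (Fin 2) K).trace = t := by
    intro t
    refine ⟨⟨!![t, 1; -1, 0], ?_⟩, ?_⟩
    · rw [Matrix.det_fin_two]
      simp
    · simp [Matrix.trace_fin_two]
  by_cases hp2 : p = 2
  · subst hp2
    have h2 : (2 : K) = 0 := CharTwo.two_eq_zero
    refine ⟨{t : K | ∀ A : K, t ≠ A ^ 2 + A}, ?_, fun t _ => hex t, ?_⟩
    · have := Pool.Agent.W332.Half.half_card K
      omega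
    intro g hg
    have ht0 : (g : Matrix (Fin 2) (Fin 2) K).trace ≠ 0 := by
      intro h0
      exact hg 0 (by rw [h0]; simp)
    refine ⟨Pool.Agent.Y65.PS.regular 2 g ht0 ?_, ?_⟩
    · have h4 : (4 : K) = 0 := by linear_combination 2 * h2
      rw [h4]
      exact pow_ne_zero 2 ht0
    · intro x hx
      rw [if_pos rfl] at hx
      obtain ⟨X, hX⟩ := Pool.Agent.Y65.PS.lift_cls x (Pool.Agent.Y65.PS.emb hd
        Pool.Agent.W332.Half.word)
      rw [hX, Pool.Agent.Y65.PS.lift_emb, Pool.Agent.W332.Half.lift_word] at hx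
      obtain ⟨r, hr, hrm⟩ := Pool.Agent.Y65.PS.cls_eq hx
      have hr1 : r = 1 := by
        have h5 : (r - 1) ^ 2 = 0 := by linear_combination hr + (1 - r) * h2
        exact sub_eq_zero.1 (pow_eq_zero_iff (two_ne_zero)|>.1 h5)
      rw [hr1, one_smul] at hrm
      obtain ⟨A, hA⟩ := Pool.Agent.W332.Half.trace_wordVal h2 (X (Fin.castLE hd 0))
        (X (Fin.castLE hd 1))
      apply hg A
      rw [hrm, hA]
  · have h2 : (2 : K) ≠ 0 := by
      intro h
      have h3 : ((2 : ℕ) : K) = 0 := by exact_mod_cast h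
      have h4 := (CharP.cast_eq_zero_iff K p 2).1 h3
      exact hp2 ((Nat.prime_dvd_prime_iff_eq hp.out Nat.prime_two).1 h4)
    refine ⟨{t : K | t ≠ 0 ∧ ¬ IsSquare (2 + t) ∧ ¬ IsSquare (2 - t)},
      Pool.Agent.Y65.PS.quarter h2, fun t _ => hex t, ?_⟩
    intro g hg
    obtain ⟨ht0, hs1, hs2⟩ := hg
    set t := (g : Matrix (Fin 2) (Fin 2) K).trace with ht
    refine ⟨Pool.Agent.Y65.PS.regular p g ht0 ?_, ?_⟩
    · rw [← ht]
      intro h4
      have h5 : (t - 2) * (t + 2) = 0 := by linear_combination h4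
      rcases mul_eq_zero.1 h5 with h6 | h6
      · apply hs2
        rw [show 2 - t = 0 by linear_combination -h6]
        exact IsSquare.zero
      · apply hs1
        rw [show 2 + t = 0 by linear_combination h6]
        exact IsSquare.zero
    · intro x hx
      rw [if_neg hp2] at hx
      obtain ⟨X, hX⟩ := Pool.Agent.Y65.PS.lift_cls x (Pool.Agent.Y65.PS.emb hd w)
      have hw : FreeGroup.lift ![X (Fin.castLE hd 0), X (Fin.castLE hd 1)] w =
          Pool.Agent.Y65.PS.wordVal (X (Fin.castLE hd 0)) (X (Fin.castLE hd 1)) :=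
        Pool.Agent.Y65.PS.lift_word _ _
      rw [hX, Pool.Agent.Y65.PS.lift_emb, hw] at hx
      obtain ⟨r, hr, hrm⟩ := Pool.Agent.Y65.PS.cls_eq hx
      obtain ⟨f, hf⟩ := Pool.Agent.Y65.PS.trace_wordVal (X (Fin.castLE hd 0))
        (X (Fin.castLE hd 1))
      have h3 : t = r * (f ^ 2 - 2) := by
        rw [ht, hrm, Matrix.trace_smul, hf, smul_eq_mul]
      have h4 : (r - 1) * (r + 1) = 0 := by linear_combination hr
      rcases mul_eq_zero.1 h4 with h5 | h5
      · apply hs1
        refine ⟨f, ?_⟩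
        linear_combination h3 + (f ^ 2 - 2) * h5
      · apply hs2
        refine ⟨f, ?_⟩
        linear_combination -h3 - (f ^ 2 - 2) * h5

end Pool.Agent.Results.MP_11bee9_al.EveryCharacteristic
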